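import Mathlib

set_option autoImplicit false

namespace Pool.Agent.Results.MP_dc22f7_an.Disproof

open Filter Topology

/-- The iterated Laguerre (Turan) expressions of a real sequence `g`:
`iter g 0 k = (g k)^2 - g (k-1) * g (k+1)` (used for `k ≥ 1`) and
`iter g (n+1) k = (iter g n k)^2 - iter g n (k-1) * iter g n (k+1)` (used for `k ≥ n+2`). -/
def iter (g : ℕ → ℝ) : ℕ → ℕ → ℝ
  | 0, k => (g k) ^ 2 - g (k - 1) * g (k + 1)
  | n + 1, k => (iter g n k) ^ 2 - iter g n (k - 1) * iter g n (k + 1)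

/-- `laguerre φ n k x` is the expression `T_k^{(n)}(φ(x))` of the problem, for a real entire
function `φ : ℂ → ℂ` and a real point `x`; the derivative `φ^{(j)}(x)` is a real number for a
real entire function, read off as a real part. -/
noncomputable def laguerre (φ : ℂ → ℂ) (n k : ℕ) (x : ℝ) : ℝ :=
  iter (fun j => (iteratedDeriv j φ (x : ℂ)).re) n k

/-- A real entire function: entire, with all Taylor coefficients at `0` real. -/
def RealEntire (φ : ℂ → ℂ) : Prop :=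
  Differentiable ℂ φ ∧ ∀ j : ℕ, (iteratedDeriv j φ 0).im = 0

/-- The maximum modulus `M(r) = max_{|z| = r} |φ(z)|`. -/
noncomputable def maxMod (φ : ℂ → ℂ) (r : ℝ) : ℝ :=
  sSup ((fun z : ℂ => ‖φ z‖) '' Metric.sphere (0 : ℂ) r)

/-- The growth order `limsup_{r → ∞} log log M(r) / log r`, as an extended real number. -/
noncomputable def growthOrder (φ : ℂ → ℂ) : EReal :=
  limsup (fun r : ℝ => ((Real.log (Real.log (maxMod φ r)) / Real.log r : ℝ) : EReal)) atTop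

/-- `E a z = exp z * (a 0 + a 1 * z + ... + a 5 * z^5)` with real coefficients. -/
noncomputable def E (a0 a1 a2 a3 a4 a5 : ℝ) (z : ℂ) : ℂ :=
  Complex.exp z * ((a0 : ℂ) + a1 * z + a2 * z ^ 2 + a3 * z ^ 3 + a4 * z ^ 4 + a5 * z ^ 5)

lemma hasDerivAt_E (a0 a1 a2 a3 a4 a5 : ℝ) (z : ℂ) :
    HasDerivAt (E a0 a1 a2 a3 a4 a5)
      (E (a0 + a1) (a1 + 2 * a2) (a2 + 3 * a3) (a3 + 4 * a4) (a4 + 5 * a5) a5 z) z := by
  have h1 : HasDerivAt (fun z : ℂ => (a0 : ℂ) + a1 * z + a2 * z ^ 2 + a3 * z ^ 3 + a4 * z ^ 4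
      + a5 * z ^ 5)
      (0 + a1 * 1 + a2 * ((2 : ℕ) * z ^ 1) + a3 * ((3 : ℕ) * z ^ 2) + a4 * ((4 : ℕ) * z ^ 3)
        + a5 * ((5 : ℕ) * z ^ 4)) z := by
    have hid := hasDerivAt_id' z
    have c : ∀ (b : ℂ), HasDerivAt (fun _ : ℂ => b) 0 z := fun b => hasDerivAt_const z b
    exact ((((((c a0).fun_add ((hid).const_mul (a1 : ℂ))).fun_add
      ((hasDerivAt_pow 2 z).const_mul (a2 : ℂ))).fun_add
      ((hasDerivAt_pow 3 z).const_mul (a3 : ℂ))).fun_add
      ((hasDerivAt_pow 4 z).const_mul (a4 : ℂ))).fun_add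
      ((hasDerivAt_pow 5 z).const_mul (a5 : ℂ)))
  have h2 := (Complex.hasDerivAt_exp z).fun_mul h1
  refine (h2.congr_deriv ?_)
  unfold E
  push_cast
  ring

lemma deriv_E (a0 a1 a2 a3 a4 a5 : ℝ) :
    deriv (E a0 a1 a2 a3 a4 a5) =
      E (a0 + a1) (a1 + 2 * a2) (a2 + 3 * a3) (a3 + 4 * a4) (a4 + 5 * a5) a5 := by
  funext z
  exact (hasDerivAt_E a0 a1 a2 a3 a4 a5 z).deriv

lemma differentiable_E (a0 a1 a2 a3 a4 a5 : ℝ) : Differentiable ℂ (E a0 a1 a2 a3 a4 a5) :=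
  fun z => (hasDerivAt_E a0 a1 a2 a3 a4 a5 z).differentiableAt

/-- Derivatives of `E` stay in the family, with nonnegative coefficients if they were. -/
lemma iteratedDeriv_E (j : ℕ) : ∀ (a0 a1 a2 a3 a4 a5 : ℝ), 0 < a0 → 0 ≤ a1 → 0 ≤ a2 → 0 ≤ a3 →
    0 ≤ a4 → 0 ≤ a5 →
    ∃ b0 b1 b2 b3 b4 b5 : ℝ, 0 < b0 ∧ iteratedDeriv j (E a0 a1 a2 a3 a4 a5) = E b0 b1 b2 b3 b4 b5 := by
  induction j with
  | zero =>
    intro a0 a1 a2 a3 a4 a5 h0 _ _ _ _ _
    exact ⟨a0, a1, a2, a3, a4, a5, h0, iteratedDeriv_zero⟩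
  | succ j ih =>
    intro a0 a1 a2 a3 a4 a5 h0 h1 h2 h3 h4 h5
    rw [iteratedDeriv_succ', deriv_E]
    exact ih _ _ _ _ _ _ (by positivity) (by positivity) (by positivity) (by positivity)
      (by positivity) (by positivity)

lemma E_zero (a0 a1 a2 a3 a4 a5 : ℝ) : E a0 a1 a2 a3 a4 a5 0 = (a0 : ℂ) := by
  simp [E]

/-- The function `exp z * (4 z + 1)^2 * (z + 17)^3`. -/
noncomputable def phi (z : ℂ) : ℂ := Complex.exp z * (4 * z + 1) ^ 2 * (z + 17) ^ 3

lemma phi_eq : phi = E 4913 40171 85595 14281 824 16 := by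
  funext z
  unfold phi E
  push_cast
  ring

lemma iteratedDeriv_phi_values :
    iteratedDeriv 0 phi 0 = ((4913 : ℝ) : ℂ) ∧ iteratedDeriv 1 phi 0 = ((45084 : ℝ) : ℂ) ∧
    iteratedDeriv 2 phi 0 = ((256445 : ℝ) : ℂ) ∧ iteratedDeriv 3 phi 0 = ((724682 : ℝ) : ℂ) ∧
    iteratedDeriv 4 phi 0 = ((1555257 : ℝ) : ℂ) ∧ iteratedDeriv 5 phi 0 = ((2875328 : ℝ) : ℂ) ∧
    iteratedDeriv 6 phi 0 = ((4835669 : ℝ) : ℂ) ∧ iteratedDeriv 7 phi 0 = ((7612590 : ℝ) : ℂ) ∧
    iteratedDeriv 8 phi 0 = ((11409857 : ℝ) : ℂ) ∧ iteratedDeriv 9 phi 0 = ((16460612 : ℝ) : ℂ) ∧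
    iteratedDeriv 10 phi 0 = ((23029293 : ℝ) : ℂ) := by
  rw [phi_eq]
  refine ⟨?_, ?_, ?_, ?_, ?_, ?_, ?_, ?_, ?_, ?_, ?_⟩ <;>
    simp only [iteratedDeriv_succ', deriv_E, iteratedDeriv_zero, E_zero] <;> norm_num

lemma laguerre_phi_neg : laguerre phi 4 5 0 < 0 := by
  obtain ⟨h0, h1, h2, h3, h4, h5, h6, h7, h8, h9, h10⟩ := iteratedDeriv_phi_values
  simp only [laguerre, Complex.ofReal_zero]
  simp only [iter, Nat.reduceSub, Nat.reduceAdd, h0, h1, h2, h3, h4, h5, h6, h7, h8, h9, h10,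
    Complex.ofReal_re]
  norm_num

lemma phi_zeros (z : ℂ) (hz : phi z = 0) : z.im = 0 ∧ z.re < 0 := by
  unfold phi at hz
  have h1 : Complex.exp z ≠ 0 := Complex.exp_ne_zero z
  rcases mul_eq_zero.mp hz with h | h
  · rcases mul_eq_zero.mp h with h | h
    · exact absurd h h1
    · have h2 : 4 * z + 1 = 0 := by simpa using h
      have h3 : z = ((-1 / 4 : ℝ) : ℂ) := by
        push_cast
        linear_combination h2 / 4
      rw [h3]
      constructor
      · exact Complex.ofReal_im _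
      · rw [Complex.ofReal_re]; norm_num
  · have h2 : z + 17 = 0 := by simpa using h
    have h3 : z = ((-17 : ℝ) : ℂ) := by
      push_cast
      linear_combination h2
    rw [h3]
    constructor
    · exact Complex.ofReal_im _
    · rw [Complex.ofReal_re]; norm_num

lemma norm_phi_le (r : ℝ) (hr : 1 ≤ r) (z : ℂ) (hz : z ∈ Metric.sphere (0 : ℂ) r) :
    ‖phi z‖ ≤ Real.exp (19 * r) := by
  have hzr : ‖z‖ = r := by simpa using hz
  have e1 : ‖Complex.exp z‖ ≤ Real.exp r := by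
    rw [Complex.norm_exp]
    exact Real.exp_le_exp.mpr (hzr ▸ Complex.re_le_norm z)
  have e2 : ‖4 * z + 1‖ ≤ 5 * r := by
    calc ‖4 * z + 1‖ ≤ ‖4 * z‖ + ‖(1 : ℂ)‖ := norm_add_le _ _
      _ = 4 * r + 1 := by rw [norm_mul, hzr]; simp
      _ ≤ 5 * r := by linarith
  have e3 : ‖z + 17‖ ≤ 18 * r := by
    calc ‖z + 17‖ ≤ ‖z‖ + ‖(17 : ℂ)‖ := norm_add_le _ _
      _ = r + 17 := by rw [hzr]; simp
      _ ≤ 18 * r := by linarith
  have e4 : ‖phi z‖ ≤ Real.exp r * (5 * r) ^ 2 * (18 * r) ^ 3 := by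
    unfold phi
    rw [norm_mul, norm_mul, norm_pow, norm_pow]
    gcongr
  have e5 : r ≤ Real.exp r := by
    have := Real.add_one_le_exp r
    linarith
  have e6 : Real.exp r * (5 * r) ^ 2 * (18 * r) ^ 3 ≤ Real.exp 12 * Real.exp (6 * r) := by
    have hexp6 : Real.exp (6 * r) = Real.exp r * (Real.exp r) ^ 5 := by
      rw [← Real.exp_nat_mul, ← Real.exp_add]
      congr 1
      push_cast
      ring
    have h12 : (145800 : ℝ) ≤ Real.exp 12 := by
      have h2 : (2.7 : ℝ) ≤ Real.exp 1 := by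
        have := Real.exp_one_gt_d9
        linarith
      have : Real.exp 12 = (Real.exp 1) ^ 12 := by
        rw [← Real.exp_nat_mul]; norm_num
      rw [this]
      calc (145800 : ℝ) ≤ 2.7 ^ 12 := by norm_num
        _ ≤ (Real.exp 1) ^ 12 := by gcongr
    rw [hexp6]
    calc Real.exp r * (5 * r) ^ 2 * (18 * r) ^ 3 = 145800 * (Real.exp r * r ^ 5) := by ring
      _ ≤ Real.exp 12 * (Real.exp r * (Real.exp r) ^ 5) := by gcongr
  calc ‖phi z‖ ≤ _ := e4
    _ ≤ _ := e6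
    _ = Real.exp (12 + 6 * r) := by rw [← Real.exp_add]
    _ ≤ Real.exp (19 * r) := Real.exp_le_exp.mpr (by linarith)

lemma maxMod_le (r : ℝ) (hr : 1 ≤ r) : maxMod phi r ≤ Real.exp (19 * r) := by
  unfold maxMod
  apply csSup_le
  · refine ⟨_, ⟨(r : ℂ), ?_, rfl⟩⟩
    simp [abs_of_nonneg (by linarith : (0 : ℝ) ≤ r)]
  · rintro _ ⟨z, hz, rfl⟩
    exact norm_phi_le r hr z hz

lemma le_maxMod (r : ℝ) (hr : 1 ≤ r) : Real.exp r ≤ maxMod phi r := by
  unfold maxMod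
  have hb : BddAbove ((fun z : ℂ => ‖phi z‖) '' Metric.sphere (0 : ℂ) r) := by
    refine ⟨Real.exp (19 * r), ?_⟩
    rintro _ ⟨z, hz, rfl⟩
    exact norm_phi_le r hr z hz
  have hmem : ‖phi (r : ℂ)‖ ∈ ((fun z : ℂ => ‖phi z‖) '' Metric.sphere (0 : ℂ) r) := by
    refine ⟨(r : ℂ), ?_, rfl⟩
    simp [abs_of_nonneg (by linarith : (0 : ℝ) ≤ r)]
  refine le_trans ?_ (le_csSup hb hmem)
  have h1 : phi (r : ℂ) = ((Real.exp r * (4 * r + 1) ^ 2 * (r + 17) ^ 3 : ℝ) : ℂ) := by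
    unfold phi
    push_cast
    ring
  rw [h1, Complex.norm_real, Real.norm_eq_abs, abs_of_nonneg (by positivity)]
  have h2 : 1 ≤ (4 * r + 1) ^ 2 := by nlinarith
  have h3 : 1 ≤ (r + 17) ^ 3 := one_le_pow₀ (by linarith)
  calc Real.exp r = Real.exp r * 1 * 1 := by ring
    _ ≤ Real.exp r * (4 * r + 1) ^ 2 * (r + 17) ^ 3 := by gcongr

lemma growthOrder_phi_le : growthOrder phi ≤ 1 := by
  unfold growthOrder
  have hlim : Tendsto (fun r : ℝ => (((1 + Real.log 19 / Real.log r : ℝ)) : EReal)) atTop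
      (𝓝 ((1 : ℝ) : EReal)) := by
    rw [EReal.tendsto_coe]
    have h1 : Tendsto (fun r : ℝ => Real.log 19 / Real.log r) atTop (𝓝 0) :=
      Tendsto.div_atTop tendsto_const_nhds Real.tendsto_log_atTop
    simpa using h1.const_add 1
  have hle : ∀ᶠ r : ℝ in atTop,
      ((Real.log (Real.log (maxMod phi r)) / Real.log r : ℝ) : EReal) ≤
        (((1 + Real.log 19 / Real.log r : ℝ)) : EReal) := by
    filter_upwards [eventually_ge_atTop (3 : ℝ)] with r hr
    rw [EReal.coe_le_coe_iff]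
    have hr1 : 1 ≤ r := by linarith
    have hlogr : 0 < Real.log r := Real.log_pos (by linarith)
    have hM1 := le_maxMod r hr1
    have hM2 := maxMod_le r hr1
    have hMpos : 0 < maxMod phi r := lt_of_lt_of_le (Real.exp_pos _) hM1
    have hl1 : r ≤ Real.log (maxMod phi r) := (Real.le_log_iff_exp_le hMpos).mpr hM1
    have hl2 : Real.log (maxMod phi r) ≤ 19 * r := (Real.log_le_iff_le_exp hMpos).mpr hM2
    have hl3 : Real.log (Real.log (maxMod phi r)) ≤ Real.log 19 + Real.log r := by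
      rw [← Real.log_mul (by norm_num) (by linarith)]
      exact Real.log_le_log (by linarith) hl2
    rw [div_le_iff₀ hlogr, add_mul, div_mul_cancel₀ _ hlogr.ne', one_mul]
    linarith
  calc limsup (fun r : ℝ => ((Real.log (Real.log (maxMod phi r)) / Real.log r : ℝ) : EReal)) atTop
      ≤ limsup (fun r : ℝ => (((1 + Real.log 19 / Real.log r : ℝ)) : EReal)) atTop :=
        limsup_le_limsup hle
    _ = ((1 : ℝ) : EReal) := hlim.limsup_eq
    _ = 1 := by simp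

/-- **Disproof of Q1.** The function `φ(z) = e^z (4z+1)^2 (z+17)^3` is a real entire function of
order at most one all of whose zeros are real and negative (and all of whose Taylor coefficients
at `0` are even positive, so that it lies in the Laguerre-Polya class of type I), and for it the
iterated Laguerre inequality `T_k^{(n)}(φ(x)) ≥ 0` fails with `n = 4`, `k = 5 = n + 1`, `x = 0`. -/
theorem result :
    ∃ φ : ℂ → ℂ, (∀ z : ℂ, φ z = Complex.exp z * (4 * z + 1) ^ 2 * (z + 17) ^ 3) ∧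
      RealEntire φ ∧ growthOrder φ ≤ 1 ∧
      (∀ z : ℂ, φ z = 0 → z.im = 0 ∧ z.re < 0) ∧
      (∀ j : ℕ, 0 < (iteratedDeriv j φ 0).re) ∧
      laguerre φ 4 5 0 < 0 := by
  have hpos : ∀ j : ℕ, ∃ b : ℝ, 0 < b ∧ iteratedDeriv j phi 0 = (b : ℂ) := by
    intro j
    obtain ⟨b0, b1, b2, b3, b4, b5, hb0, h⟩ := iteratedDeriv_E j 4913 40171 85595 14281 824 16
      (by norm_num) (by norm_num) (by norm_num) (by norm_num) (by norm_num) (by norm_num)
    refine ⟨b0, hb0, ?_⟩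
    rw [phi_eq, h, E_zero]
  refine ⟨phi, fun z => rfl, ⟨?_, ?_⟩, growthOrder_phi_le, phi_zeros, ?_, laguerre_phi_neg⟩
  · rw [phi_eq]
    exact differentiable_E _ _ _ _ _ _
  · intro j
    obtain ⟨b, _, h⟩ := hpos j
    rw [h, Complex.ofReal_im]
  · intro j
    obtain ⟨b, hb, h⟩ := hpos j
    rw [h, Complex.ofReal_re]
    exact hb

end Pool.Agent.Results.MP_dc22f7_an.Disproof
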